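import Pool.Agent.NBT.StmtsF

/-!
Row PIM of table nbt: an element which fixes the rays of the vertices preserves the subspaces `B_I`
and commutes with the projections.
-/

set_option autoImplicit false

open Matrix Filter Topology

namespace Pool.Agent.NBT.H77

open Pool.Agent.PFS Pool.Agent.PFJ

variable {n K : ℕ}

theorem act_fs (g : GL (Fin n) ℝ) (w : Fin K → V n) (l : Fin K → ℝ)
    (hw : ∀ i, act g (w i) = l i • w i) (I : Finset (Fin K)) :
    act g (fS w I) = fS (fun i => l i • w i) I := by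
  unfold fS
  rw [CC.act_sum]
  exact Finset.sum_congr rfl fun i _ => hw i

theorem face_act {C : Set (V n)} {Γ : Subgroup (GL (Fin n) ℝ)} (h : CC C Γ)
    {g : GL (Fin n) ℝ} (hg : g ∈ Γ) (x : V n) : act g '' Face C x = Face C (act g x) := by
  ext y
  constructor
  · rintro ⟨z, ⟨ε, hε, h1, h2⟩, rfl⟩
    refine ⟨ε, hε, ?_, ?_⟩
    · rw [← CC.act_smul, ← CC.act_sub]
      exact h.act_cl hg h1
    · rw [← CC.act_smul, ← CC.act_sub]
      exact h.act_cl hg h2
  · rintro ⟨ε, hε, h1, h2⟩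
    refine ⟨act g⁻¹ y, ⟨ε, hε, ?_, ?_⟩, CC.act_act_inv g y⟩
    · rw [← h.act_cl_iff hg, CC.act_sub, CC.act_smul, CC.act_act_inv]
      exact h1
    · rw [← h.act_cl_iff hg, CC.act_sub, CC.act_smul, CC.act_act_inv]
      exact h2

theorem img_span (g : GL (Fin n) ℝ) (S : Set (V n)) :
    img g (Submodule.span ℝ S) = Submodule.span ℝ (act g '' S) := by
  unfold img
  rw [Submodule.map_span]
  rfl

/-- one direction of the invariance of smallness -/
theorem sml_act {C : Set (V n)} {Γ : Subgroup (GL (Fin n) ℝ)} (h : CC C Γ)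
    {g : GL (Fin n) ℝ} (hg : g ∈ Γ) (w : Fin K → V n) (hwc : ∀ i, w i ∈ closure C)
    (l : Fin K → ℝ) (hl : ∀ i, 0 < l i) (hw : ∀ i, act g (w i) = l i • w i)
    (J : Finset (Fin K)) (u : V n) (hu : Pool.Agent.PCO.Sml C (fS w J) u) :
    Pool.Agent.PCO.Sml C (fS w J) (act g u) := by
  intro x hx τ hτ
  have hx' : act g⁻¹ x ∈ C := h.mem g⁻¹ (Γ.inv_mem hg) x hx
  obtain ⟨κ, hκ, h1, h2⟩ := hu _ hx' τ hτ
  set L : ℝ := ∑ i, l i + 1 with hL
  have hL0 : 0 < L := by
    have : 0 ≤ ∑ i, l i := Finset.sum_nonneg fun i _ => (hl i).le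
    linarith
  have hle : L • fS w J - act g (fS w J) ∈ closure C := by
    have e : L • fS w J - act g (fS w J) = ∑ i ∈ J, (L - l i) • w i := by
      rw [act_fs g w l hw]
      unfold fS
      rw [Finset.smul_sum, ← Finset.sum_sub_distrib]
      exact Finset.sum_congr rfl fun i _ => (sub_smul _ _ _).symm
    rw [e]
    apply h.toPCone.cl_sum
    intro i _
    apply h.toPCone.cl_smul (hwc i)
    have h3 : l i ≤ ∑ i, l i :=
      Finset.single_le_sum (f := l) (fun j _ => (hl j).le) (Finset.mem_univ i)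
    linarith
  have hk := h.toPCone.cl_smul_pos hle hκ
  refine ⟨κ * L, mul_pos hκ hL0, ?_, ?_⟩
  · have e : (κ * L) • fS w J + τ • x - act g u =
        act g (κ • fS w J + τ • act g⁻¹ x - u) + κ • (L • fS w J - act g (fS w J)) := by
      rw [CC.act_sub, CC.act_add, CC.act_smul, CC.act_smul, CC.act_act_inv, smul_sub, mul_smul]
      abel
    rw [e]
    exact h.toPCone.cl_add (h.act_cl hg h1) hk
  · have e : (κ * L) • fS w J + τ • x + act g u =
        act g (κ • fS w J + τ • act g⁻¹ x + u) + κ • (L • fS w J - act g (fS w J)) := by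
      rw [CC.act_add, CC.act_add, CC.act_smul, CC.act_smul, CC.act_act_inv, smul_sub, mul_smul]
      abel
    rw [e]
    exact h.toPCone.cl_add (h.act_cl hg h2) hk

/-- PIM. -/
theorem pim (_ : TbfStmt) (hBin : BinStmt) (hPjf : PjfStmt) : PimStmt := by
  intro n C Γ Γ₀ K T c hTB w hw g hg l hl hlw
  have h : CC C Γ := hTB.cc
  have hwc : ∀ i, w i ∈ closure C := fun i => h.hul.lamCl _ ((hTB.pes w hw).2 i)
  have hB : ∀ I, img g (BI C w I) = BI C w I := by
    intro I
    have h1 := (hBin n C Γ Γ₀ K T c hTB w hw).1 l hl I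
    unfold BI at h1 ⊢
    rw [← act_fs g w l hlw, ← face_act h hg, ← img_span] at h1
    exact h1
  have hlw' : ∀ i, act g⁻¹ (w i) = (l i)⁻¹ • w i := by
    intro i
    have h1 : act g⁻¹ (act g (w i)) = act g⁻¹ (l i • w i) := by rw [hlw]
    rw [CC.act_inv_act, CC.act_smul] at h1
    have h2 : (l i)⁻¹ • w i = (l i)⁻¹ • l i • act g⁻¹ (w i) := by rw [← h1]
    rw [h2, smul_smul, inv_mul_cancel₀ (hl i).ne', one_smul]
  refine ⟨hB, fun I p hp x => ?_⟩
  set A : V n →ₗ[ℝ] V n := Matrix.mulVecLin (g : Matrix (Fin n) (Fin n) ℝ) with hA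
  set A' : V n →ₗ[ℝ] V n := Matrix.mulVecLin ((g⁻¹ : GL (Fin n) ℝ) : Matrix (Fin n) (Fin n) ℝ)
    with hA'
  have hAa : ∀ z, A z = act g z := fun z => rfl
  have hAa' : ∀ z, A' z = act g⁻¹ z := fun z => rfl
  have hinvB : ∀ y ∈ BI C w I, act g⁻¹ y ∈ BI C w I := by
    intro y hy
    rw [← hB I] at hy
    obtain ⟨z, hz, hzy⟩ := mem_img.1 hy
    rw [← hzy, CC.act_inv_act]
    exact hz
  have hp' : PrI C w I (A ∘ₗ p ∘ₗ A') := by
    refine ⟨?_, ?_, ?_, ?_⟩
    · intro y
      rw [← hB I]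
      exact mem_img.2 ⟨p (A' y), hp.mem _, rfl⟩
    · intro y hy
      show act g (p (act g⁻¹ y)) = y
      rw [hp.idB _ (hinvB y hy), CC.act_act_inv]
    · intro y hy
      show act g (p (act g⁻¹ y)) ∈ closure C
      exact h.act_cl hg (hp.pos _ (h.act_cl (Γ.inv_mem hg) hy))
    · intro y
      show act g (p (act g⁻¹ y)) = 0 ↔ _
      have h1 : act g (p (act g⁻¹ y)) = 0 ↔ p (act g⁻¹ y) = 0 := by
        constructor
        · intro h2
          apply CC.act_injective g
          rw [h2, CC.act_zero]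
        · intro h2
          rw [h2, CC.act_zero]
      rw [h1, hp.ker]
      constructor
      · intro h2
        have h3 := sml_act h hg w hwc l hl hlw _ _ h2
        rw [CC.act_act_inv] at h3
        exact h3
      · intro h2
        exact sml_act h (Γ.inv_mem hg) w hwc (fun i => (l i)⁻¹) (fun i => inv_pos.2 (hl i)) hlw' _ _ h2
  have heq := ((hPjf n C Γ Γ₀ K T c hTB w hw I p hp).2.2.1) _ hp'
  have h5 : (A ∘ₗ p ∘ₗ A') (act g x) = p (act g x) := by rw [heq]
  have h6 : (A ∘ₗ p ∘ₗ A') (act g x) = act g (p (act g⁻¹ (act g x))) := rfl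
  rw [h6, CC.act_inv_act] at h5
  exact h5.symm

end Pool.Agent.NBT.H77
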